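import Mathlib

set_option autoImplicit false

namespace Pool.Agent.H.MP_a9f24d_an

open Finset

section avg
variable {τ : Type} [Fintype τ] [DecidableEq τ]

abbrev AD (τ : Type) [Fintype τ] [DecidableEq τ] (k : ℕ) : Finset (τ →₀ ℕ) :=
  finsuppAntidiag (univ : Finset τ) k

lemma mem_AD {k : ℕ} {a : τ →₀ ℕ} : a ∈ AD τ k ↔ ∑ i, a i = k := by
  simp [mem_finsuppAntidiag]

noncomputable def w (b g : τ →₀ ℕ) : ℝ := ∏ i, ((b i + g i).choose (b i) : ℝ)

lemma w_comm (b g : τ →₀ ℕ) : w b g = w g b := by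
  refine prod_congr rfl fun i _ => ?_
  rw [Nat.choose_symm_add, add_comm]

lemma row (k m : ℕ) : ∃ r : ℝ, ∀ b ∈ AD τ k, ∑ g ∈ AD τ m, w b g = r := by
  refine ⟨PowerSeries.coeff m ((PowerSeries.mk 1 : PowerSeries ℝ) ^ (k + Fintype.card τ)), fun b hb => ?_⟩
  have : k + Fintype.card τ = ∑ i, (b i + 1) := by
    rw [sum_add_distrib, mem_AD.1 hb]; simp
  rw [this, ← prod_pow_eq_pow_sum, PowerSeries.coeff_prod]
  refine sum_congr rfl fun g _ => prod_congr rfl fun i _ => ?_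
  rw [PowerSeries.mk_one_pow_eq_mk_choose_add, PowerSeries.coeff_mk]

lemma vand (k : ℕ) (a : τ →₀ ℕ) :
    ∑ b ∈ AD τ k, ∏ i, ((a i).choose (b i) : ℝ) = (∑ i, a i).choose k := by
  have h : ∀ s t : ℕ, PowerSeries.coeff t ((1 + PowerSeries.X : PowerSeries ℝ) ^ s) = s.choose t := by
    intro s t
    have : (1 + PowerSeries.X : PowerSeries ℝ) ^ s = ((1 + Polynomial.X : Polynomial ℝ) ^ s : Polynomial ℝ) := by
      simp
    rw [this, Polynomial.coeff_coe, Polynomial.coeff_one_add_X_pow]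
  rw [← h, ← prod_pow_eq_pow_sum, PowerSeries.coeff_prod]
  exact sum_congr rfl fun g _ => prod_congr rfl fun i _ => (h _ _).symm

lemma reidx (k m : ℕ) (G : (τ →₀ ℕ) → ℝ) :
    ∑ b ∈ AD τ k, ∑ g ∈ AD τ m, w b g * G (b + g) = (k + m).choose k * ∑ a ∈ AD τ (k + m), G a := by
  have : ∀ b ∈ AD τ k, ∑ g ∈ AD τ m, w b g * G (b + g) =
      ∑ a ∈ AD τ (k + m), (∏ i, ((a i).choose (b i) : ℝ)) * G a := by
    intro b hb
    refine sum_of_injOn (fun g => b + g) (fun x _ y _ h => add_left_cancel h) ?_ ?_ ?_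
    · intro g hg
      rw [mem_coe] at hg
      rw [mem_AD] at *
      simp [sum_add_distrib, hb, hg]
    · intro a ha hn
      by_cases hle : b ≤ a
      · exfalso
        apply hn
        refine ⟨a - b, ?_, add_tsub_cancel_of_le hle⟩
        rw [mem_coe, mem_AD] at *
        have : ∑ i, a i = ∑ i, (b i + (a - b) i) := by
          refine sum_congr rfl fun i _ => ?_
          have := hle i
          simp; omega
        rw [sum_add_distrib] at this
        omega
      · obtain ⟨i, hi⟩ := not_forall.1 hle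
        rw [prod_eq_zero (mem_univ i), zero_mul]
        rw [Nat.choose_eq_zero_of_lt (not_le.1 hi)]; simp
    · intro g _; rfl
  rw [sum_congr rfl this, sum_comm, mul_sum]
  refine sum_congr rfl fun a ha => ?_
  rw [← sum_mul, vand, mem_AD.1 ha]

lemma AD_pos [Nonempty τ] (k : ℕ) : 0 < (AD τ k).card := by
  obtain ⟨i⟩ := ‹Nonempty τ›
  exact card_pos.2 ⟨Finsupp.single i k, mem_AD.2 (by simp [Finsupp.single_apply])⟩

lemma avg_sub [Nonempty τ] (F : (τ →₀ ℕ) → ℝ) (hF : ∀ a b, F (a + b) ≤ F a + F b) :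
    Subadditive fun k => (∑ a ∈ AD τ k, F a) / (AD τ k).card := by
  intro k m
  obtain ⟨r1, h1⟩ := row (τ := τ) k m
  obtain ⟨r2, h2⟩ := row (τ := τ) m k
  have e1 : ∀ G : (τ →₀ ℕ) → ℝ, ∑ b ∈ AD τ k, ∑ g ∈ AD τ m, w b g * G b = r1 * ∑ b ∈ AD τ k, G b := by
    intro G
    rw [mul_sum]
    exact sum_congr rfl fun b hb => by rw [← sum_mul, h1 b hb]
  have e2 : ∀ G : (τ →₀ ℕ) → ℝ, ∑ b ∈ AD τ k, ∑ g ∈ AD τ m, w b g * G g = r2 * ∑ b ∈ AD τ m, G b := by
    intro G
    rw [mul_sum, sum_comm]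
    exact sum_congr rfl fun b hb => by
      rw [← sum_mul, ← h2 b hb]; congr 1; exact sum_congr rfl fun g _ => w_comm _ _
  have a1 := e1 fun _ => 1
  have a2 := e2 fun _ => 1
  have a3 := reidx (τ := τ) k m fun _ => 1
  have hle : ∑ b ∈ AD τ k, ∑ g ∈ AD τ m, w b g * F (b + g) ≤
      ∑ b ∈ AD τ k, ∑ g ∈ AD τ m, w b g * F b + ∑ b ∈ AD τ k, ∑ g ∈ AD τ m, w b g * F g := by
    rw [← sum_add_distrib]
    refine sum_le_sum fun b _ => ?_
    rw [← sum_add_distrib]
    refine sum_le_sum fun g _ => ?_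
    rw [← mul_add]
    exact mul_le_mul_of_nonneg_left (hF b g) (prod_nonneg fun i _ => by positivity)
  rw [reidx, e1, e2] at hle
  simp only [sum_const, nsmul_eq_mul, mul_one] at a1 a2 a3
  have p1 : (0 : ℝ) < (AD τ k).card := by exact_mod_cast AD_pos k
  have p2 : (0 : ℝ) < (AD τ m).card := by exact_mod_cast AD_pos m
  have p3 : (0 : ℝ) < (AD τ (k + m)).card := by exact_mod_cast AD_pos (k + m)
  have p4 : (0 : ℝ) < (k + m).choose k := by exact_mod_cast Nat.choose_pos (Nat.le_add_right k m)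
  have b1 : r1 = (k + m).choose k * (AD τ (k + m)).card / (AD τ k).card := by
    rw [eq_div_iff p1.ne']; linarith
  have b2 : r2 = (k + m).choose k * (AD τ (k + m)).card / (AD τ m).card := by
    rw [eq_div_iff p2.ne']; linarith
  rw [b1, b2] at hle
  simp only
  rw [div_le_iff₀ p3]
  refine le_of_mul_le_mul_left (hle.trans (le_of_eq ?_)) p4
  field_simp

end avg

abbrev Ix (n k : ℕ) : Type := {α : Fin n → Fin (k+1) // ∑ i, (α i : ℕ) ≤ k}

noncomputable def emb {n k : ℕ} (a : Ix n k) : Fin n →₀ ℕ :=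
  Finsupp.equivFunOnFinite.symm fun i => (a.1 i : ℕ)

@[simp] lemma emb_apply {n k : ℕ} (a : Ix n k) (i : Fin n) : emb a i = a.1 i := rfl

lemma emb_inj {n k : ℕ} : Function.Injective (emb : Ix n k → _) := by
  intro a b h
  ext i
  exact congrArg (fun f => f i) h

lemma emb_surj {n k : ℕ} (d : Fin n →₀ ℕ) (h : ∑ i, d i ≤ k) : ∃ a : Ix n k, emb a = d := by
  refine ⟨⟨fun i => ⟨d i, Nat.lt_succ_of_le ((single_le_sum (f := fun i => d i)
    (fun _ _ => Nat.zero_le _) (mem_univ i)).trans h)⟩, h⟩, ?_⟩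
  ext i; rfl

lemma sum_Ix (n k : ℕ) (G : (Fin n →₀ ℕ) → ℝ) :
    ∑ a : Ix n k, G (emb a) = ∑ b ∈ AD (Option (Fin n)) k, G b.some := by
  refine sum_bij (fun a _ => (emb a).optionElim (k - ∑ i, (a.1 i : ℕ))) ?_ ?_ ?_ ?_
  · intro a _
    rw [mem_AD, Fintype.sum_option]
    have := a.2
    simp; omega
  · intro a _ b _ h
    apply emb_inj
    ext i
    have := congrArg (fun f => f (some i)) h
    simpa using this
  · intro b hb
    rw [mem_AD, Fintype.sum_option] at hb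
    obtain ⟨a, ha⟩ := emb_surj (k := k) b.some (by simp; omega)
    refine ⟨a, mem_univ _, ?_⟩
    have : ∑ i, (a.1 i : ℕ) = ∑ i, b (some i) := sum_congr rfl fun i _ => by
      rw [← emb_apply, ha]; simp
    ext o
    cases o with
    | none => simp; omega
    | some i => rw [ha]; simp
  · intro a _
    congr 1
    ext i; simp

lemma card_Ix (n k : ℕ) : (Fintype.card (Ix n k) : ℝ) = (AD (Option (Fin n)) k).card := by
  simpa using sum_Ix n k fun _ => 1

lemma avg_sub' (n : ℕ) (F : (Fin n →₀ ℕ) → ℝ) (hF : ∀ a b, F (a + b) ≤ F a + F b) :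
    Subadditive fun k => (∑ a : Ix n k, F (emb a)) / Fintype.card (Ix n k) := by
  simp only [sum_Ix, card_Ix]
  exact avg_sub (fun b => F b.some) fun a b => by rw [Finsupp.some_add]; exact hF _ _

instance (n k : ℕ) : Nonempty (Ix n k) := ⟨⟨0, by simp⟩⟩

noncomputable def ell (n k : ℕ) : ℝ := ∑ a : Ix n k, ∑ i, ((a.1 i : ℕ) : ℝ)

lemma ell_eq {n : ℕ} (hn : 1 ≤ n) : ∃ c : ℝ, 0 < c ∧ c ≤ 1 ∧ ∀ k : ℕ,
    ell n k = c * k * Fintype.card (Ix n k) := by
  have h1 := avg_sub' n (fun a => ∑ i, (a i : ℝ)) (fun a b => by simp [sum_add_distrib])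
  have h2 := avg_sub' n (fun a => -∑ i, (a i : ℝ)) (fun a b => by simp [sum_add_distrib, add_comm])
  have pos : ∀ k, (0 : ℝ) < Fintype.card (Ix n k) := fun k => by exact_mod_cast Fintype.card_pos
  have add : ∀ k m, ell n (k + m) / Fintype.card (Ix n (k + m)) =
      ell n k / Fintype.card (Ix n k) + ell n m / Fintype.card (Ix n m) := by
    intro k m
    have a := h1 k m
    have b := h2 k m
    simp only [emb_apply, sum_neg_distrib, neg_div] at a b
    simp only [ell]; linarith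
  refine ⟨ell n 1 / Fintype.card (Ix n 1), div_pos ?_ (pos 1), ?_, fun k => ?_⟩
  · refine sum_pos' (fun _ _ => by positivity) ⟨⟨Pi.single ⟨0, hn⟩ 1, ?_⟩, mem_univ _, ?_⟩
    · rw [sum_eq_single ⟨0, hn⟩ (fun b _ hb => by simp [hb]) (by simp)]; simp
    · refine sum_pos' (fun _ _ => by positivity) ⟨⟨0, hn⟩, mem_univ _, by simp⟩
  · rw [div_le_one (pos 1), ell]
    refine (sum_le_sum (g := fun _ => (1 : ℝ)) fun a _ => ?_).trans (by simp)
    exact_mod_cast a.2
  · rw [← div_eq_iff (pos k).ne']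
    induction k with
    | zero =>
      have := add 0 0
      simp only [add_zero] at this
      simp only [Nat.cast_zero, mul_zero]; linarith
    | succ k ih => rw [add, ih]; push_cast; ring

lemma card_le (n k : ℕ) : Fintype.card (Ix n k) ≤ (k + 1) ^ n :=
  (Fintype.card_subtype_le _).trans (by simp)

lemma card_ratio (n k m L : ℕ) (hL : 0 < L) (h : k < L * (m + 1)) :
    Fintype.card (Ix n k) ≤ Fintype.card (Ix n m) * L ^ n := by
  have key : ∀ a : Ix n k, ∑ i, (a.1 i : ℕ) / L ≤ m := fun a => by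
    have h1 : L * ∑ i, (a.1 i : ℕ) / L ≤ k := by
      rw [mul_sum]
      exact (sum_le_sum fun i _ => Nat.mul_div_le _ _).trans a.2
    exact Nat.lt_succ_iff.1 (Nat.lt_of_mul_lt_mul_left (h1.trans_lt h))
  let f : Ix n k → Ix n m × (Fin n → Fin L) := fun a =>
    (⟨fun i => ⟨(a.1 i : ℕ) / L, Nat.lt_succ_of_le ((single_le_sum (f := fun i => (a.1 i : ℕ) / L)
      (fun _ _ => Nat.zero_le _) (mem_univ i)).trans (key a))⟩, key a⟩,
      fun i => ⟨(a.1 i : ℕ) % L, Nat.mod_lt _ hL⟩)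
  have : Function.Injective f := by
    intro a b hab
    ext i
    have h1 : (a.1 i : ℕ) / L = (b.1 i : ℕ) / L :=
      congrArg (fun p : Ix n m × (Fin n → Fin L) => (p.1.1 i : ℕ)) hab
    have h2 : (a.1 i : ℕ) % L = (b.1 i : ℕ) % L :=
      congrArg (fun p : Ix n m × (Fin n → Fin L) => (p.2 i : ℕ)) hab
    rw [← Nat.div_add_mod (a.1 i) L, ← Nat.div_add_mod (b.1 i) L, h1, h2]
  simpa using Fintype.card_le_of_injective f this

end Pool.Agent.H.MP_a9f24d_an
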