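import Pool.Agent.H.MP_a9f24d_an.A

set_option autoImplicit false

namespace Pool.Agent.H.MP_a9f24d_an

open Finset MvPolynomial MeasureTheory
open scoped MonomialOrder

variable {n : ℕ}

lemma coeff_bound (p : MvPolynomial (Fin n) ℂ) (M : ℝ)
    (h : ∀ z : Fin n → ℂ, (∀ i, ‖z i‖ = 1) → ‖eval z p‖ ≤ M) (α : Fin n →₀ ℕ) :
    ‖coeff α p‖ ≤ M := by
  have : Fact ((0 : ℝ) < 1) := ⟨one_pos⟩
  let μ : Measure (Fin n → AddCircle (1 : ℝ)) := Measure.pi fun _ => AddCircle.haarAddCircle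
  have one : ∀ a b : ℕ, ∫ t : AddCircle (1 : ℝ), fourier (-(a : ℤ)) t * (fourier 1 t) ^ b
      ∂AddCircle.haarAddCircle = if b = a then 1 else 0 := by
    intro a b
    have e : ∀ t : AddCircle (1 : ℝ), (fourier 1 t) ^ b = fourier (b : ℤ) t := by
      intro t
      induction b with
      | zero => simp
      | succ b ih => rw [pow_succ, ih, Nat.cast_succ, fourier_add]
    have := congrFun (fourierCoeff_fourier (T := 1) (b : ℤ)) a
    simp only [fourierCoeff, smul_eq_mul] at this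
    simp only [e, this, Pi.single_apply, Nat.cast_inj, eq_comm]
  have key : ∫ x, (∏ i, fourier (-(α i : ℤ)) (x i)) * eval (fun i => fourier 1 (x i)) p ∂μ =
      coeff α p := by
    simp only [eval_eq', mul_sum]
    rw [integral_finsetSum]
    · have : ∀ d : Fin n →₀ ℕ, ∫ x, (∏ i, fourier (-(α i : ℤ)) (x i)) *
          (coeff d p * ∏ i, (fourier 1 (x i)) ^ d i) ∂μ = if d = α then coeff d p else 0 := by
        intro d
        simp only [mul_left_comm _ (coeff d p), ← prod_mul_distrib]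
        rw [integral_const_mul, integral_fintype_prod_eq_prod
          (fun i (t : AddCircle (1 : ℝ)) => fourier (-(α i : ℤ)) t * (fourier 1 t) ^ d i)]
        simp only [one]
        split_ifs with hd
        · simp [hd]
        · obtain ⟨i, hi⟩ := DFunLike.ne_iff.1 hd
          rw [prod_eq_zero (mem_univ i) (if_neg hi), mul_zero]
      simp only [this, sum_ite_eq']
      split_ifs with hd
      · rfl
      · exact (notMem_support_iff.1 hd).symm
    · intro d _
      exact Continuous.integrable_of_hasCompactSupport (by fun_prop) (HasCompactSupport.of_compactSpace _)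
  rw [← key]
  refine (norm_integral_le_of_norm_le_const (C := M) (Filter.Eventually.of_forall fun x => ?_)).trans
    (by simp [μ])
  rw [norm_mul, norm_prod]
  have : ∏ i, ‖fourier (-(α i : ℤ)) (x i)‖ = 1 := prod_eq_one fun i _ => by
    rw [fourier_apply, Circle.norm_coe]
  rw [this, one_mul]
  exact h _ fun i => by rw [fourier_apply, Circle.norm_coe]

noncomputable def VM {k : ℕ} (z : Ix n k → Fin n → ℂ) : Matrix (Ix n k) (Ix n k) ℂ :=
  Matrix.of fun a b => ∏ i, z a i ^ ((b.1 i : ℕ))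

noncomputable def D (K : Set (Fin n → ℂ)) (k : ℕ) : ℝ :=
  sSup {s : ℝ | ∃ z : Ix n k → (Fin n → ℂ), (∀ a, z a ∈ K) ∧ s = ‖(VM z).det‖}

noncomputable def pol {k : ℕ} (c : Ix n k → ℂ) : MvPolynomial (Fin n) ℂ :=
  ∑ b, monomial (emb b) (c b)

lemma eval_pol {k : ℕ} (c : Ix n k → ℂ) (z : Fin n → ℂ) :
    eval z (pol c) = ∑ b, (∏ i, z i ^ ((b.1 i : ℕ))) * c b := by
  simp only [pol, map_sum, eval_monomial]
  refine sum_congr rfl fun b _ => ?_
  rw [Finsupp.prod_fintype _ _ (by simp), mul_comm]; rfl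

lemma sum_emb {k : ℕ} (b : Ix n k) : (emb b).degree ≤ k := by
  rw [Finsupp.degree_eq_sum]; exact b.2

lemma deg_pol {k : ℕ} (c : Ix n k → ℂ) : (pol c).totalDegree ≤ k :=
  totalDegree_finsetSum_le fun b _ => (totalDegree_monomial_le _ _).trans (by
    have := sum_emb b
    rwa [Finsupp.degree_apply] at this)

lemma coeff_pol {k : ℕ} (c : Ix n k → ℂ) (b : Ix n k) : coeff (emb b) (pol c) = c b := by
  simp [pol, coeff_sum, coeff_monomial, emb_inj.eq_iff]

lemma pol_coeff {k : ℕ} {p : MvPolynomial (Fin n) ℂ} (hp : p.totalDegree ≤ k) :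
    pol (fun b : Ix n k => coeff (emb b) p) = p := by
  ext d
  by_cases h : ∑ i, d i ≤ k
  · obtain ⟨a, rfl⟩ := emb_surj d h
    exact coeff_pol _ _
  · have h0 : ∀ q : MvPolynomial (Fin n) ℂ, q.totalDegree ≤ k → coeff d q = 0 := fun q hq =>
      coeff_eq_zero_of_totalDegree_lt (by
        have := Finsupp.degree_eq_sum d
        rw [Finsupp.degree_apply] at this
        omega)
    rw [h0 _ hp, h0 _ (deg_pol _)]

lemma eval_eq_sum_Ix {k : ℕ} {p : MvPolynomial (Fin n) ℂ} (hp : p.totalDegree ≤ k) (z : Fin n → ℂ) :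
    eval z p = ∑ b : Ix n k, (∏ i, z i ^ ((b.1 i : ℕ))) * coeff (emb b) p := by
  conv_lhs => rw [← pol_coeff hp]
  exact eval_pol _ _

lemma cont_det (k : ℕ) : Continuous fun z : Ix n k → Fin n → ℂ => (VM z).det :=
  Continuous.matrix_det (continuous_matrix fun a b => by simp only [VM, Matrix.of_apply]; fun_prop)

lemma fekete {K : Set (Fin n → ℂ)} (hK : IsCompact K) (hne : K.Nonempty) (k : ℕ) :
    ∃ x : Ix n k → Fin n → ℂ, (∀ a, x a ∈ K) ∧ ‖(VM x).det‖ = D K k ∧
      ∀ z : Ix n k → Fin n → ℂ, (∀ a, z a ∈ K) → ‖(VM z).det‖ ≤ D K k := by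
  obtain ⟨x, hx, hm⟩ := (isCompact_univ_pi fun _ : Ix n k => hK).exists_isMaxOn
    (Set.univ_pi_nonempty_iff.2 fun _ => hne) (cont_det (n := n) k).norm.continuousOn
  have : IsGreatest {s : ℝ | ∃ z : Ix n k → (Fin n → ℂ), (∀ a, z a ∈ K) ∧ s = ‖(VM z).det‖}
      ‖(VM x).det‖ :=
    ⟨⟨x, fun a => hx a trivial, rfl⟩, by rintro _ ⟨z, hz, rfl⟩; exact hm fun a _ => hz a⟩
  exact ⟨x, fun a => hx a trivial, this.csSup_eq.symm, fun z hz => by
    rw [D, this.csSup_eq]; exact hm fun a _ => hz a⟩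

lemma det_le_prod {ι : Type} [Fintype ι] [DecidableEq ι] (M : Matrix ι ι ℂ) (t : ι → ℝ)
    (h : ∀ a c, ‖M a c‖ ≤ t c) : ‖M.det‖ ≤ (Fintype.card ι).factorial * ∏ c, t c := by
  rw [Matrix.det_apply']
  refine (norm_sum_le_of_le _ (n := fun _ => ∏ c, t c) fun σ _ => ?_).trans (by
    simp [Fintype.card_perm])
  rw [norm_mul, norm_prod]
  have : ‖((Equiv.Perm.sign σ : ℤ) : ℂ)‖ = 1 := by
    rcases Int.units_eq_one_or (Equiv.Perm.sign σ) with h | h <;> simp [h]
  rw [this, one_mul]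
  exact prod_le_prod (fun _ _ => norm_nonneg _) fun c _ => h _ _

lemma lower_fin {X : Type} (K : Set X) (hne : K.Nonempty) (N : ℕ) (e : Fin N → X → ℂ) (y : Fin N → ℝ)
    (h : ∀ i, ∀ c : Fin N → ℂ, ∃ x ∈ K, y i ≤ ‖e i x + ∑ j with j < i, c j * e j x‖)
    (hy : ∀ i, 0 < y i) :
    ∃ z : Fin N → X, (∀ a, z a ∈ K) ∧ ∏ i, y i ≤ ‖(Matrix.of fun a b => e b (z a)).det‖ := by
  induction N with
  | zero => exact ⟨Fin.elim0, fun a => a.elim0, by simp⟩
  | succ N ih =>
    obtain ⟨z, hz, hd⟩ := ih (fun i => e i.castSucc) (fun i => y i.castSucc) (fun i c => by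
      obtain ⟨x, hx, hh⟩ := h i.castSucc (Fin.snoc c 0)
      refine ⟨x, hx, hh.trans (le_of_eq ?_)⟩
      congr 2
      rw [sum_filter, sum_filter, Fin.sum_univ_castSucc]
      simp [(Fin.castSucc_lt_last i).not_gt]) (fun i => hy _)
    have pos : 0 < ∏ i : Fin N, y i.castSucc := prod_pos fun i _ => hy _
    obtain ⟨d, hdd⟩ : ∃ d, d = (Matrix.of fun (a b : Fin N) => e b.castSucc (z a)).det := ⟨_, rfl⟩
    rw [← hdd] at hd
    have d0 : d ≠ 0 := norm_pos_iff.1 (pos.trans_le hd)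
    obtain ⟨x, hx, hh⟩ := h (Fin.last N) fun j => (-1) ^ (N + j : ℕ) *
      (Matrix.of fun (a b : Fin N) => e (j.succAbove b) (z a)).det / d
    refine ⟨Fin.snoc z x, fun a => ?_, ?_⟩
    · induction a using Fin.lastCases with
      | last => simpa using hx
      | cast a => simpa using hz a
    · rw [Fin.prod_univ_castSucc, Matrix.det_succ_row _ (Fin.last N)]
      refine (mul_le_mul hd hh (hy _).le (norm_nonneg _)).trans (le_of_eq ?_)
      rw [← norm_mul]
      congr 1
      rw [sum_filter, Fin.sum_univ_castSucc, Fin.sum_univ_castSucc, mul_add, add_comm]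
      congr 1
      · simp only [Fin.castSucc_lt_last, if_true, lt_irrefl, if_false, add_zero, mul_sum]
        refine sum_congr rfl fun j _ => ?_
        have : (Matrix.of fun a b => e b ((Fin.snoc z x : Fin (N + 1) → X) a)).submatrix
            (Fin.last N).succAbove j.castSucc.succAbove =
            Matrix.of fun (a b : Fin N) => e (j.castSucc.succAbove b) (z a) := by
          ext a b; simp
        rw [this]
        simp only [Fin.val_last, Matrix.of_apply, Fin.snoc_last]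
        field_simp
      · have : (Matrix.of fun a b => e b ((Fin.snoc z x : Fin (N + 1) → X) a)).submatrix
            (Fin.last N).succAbove (Fin.last N).succAbove =
            Matrix.of fun (a b : Fin N) => e b.castSucc (z a) := by
          ext a b; simp
        rw [this, ← hdd]
        simp [← two_mul, mul_comm]

lemma lower_gen {X ι : Type} [Fintype ι] [DecidableEq ι] [LinearOrder ι] (K : Set X) (hne : K.Nonempty)
    (e : ι → X → ℂ) (y : ι → ℝ)
    (h : ∀ i, ∀ c : ι → ℂ, ∃ x ∈ K, y i ≤ ‖e i x + ∑ j with j < i, c j * e j x‖)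
    (hy : ∀ i, 0 < y i) :
    ∃ z : ι → X, (∀ a, z a ∈ K) ∧ ∏ i, y i ≤ ‖(Matrix.of fun a b => e b (z a)).det‖ := by
  let f := monoEquivOfFin ι rfl
  obtain ⟨z, hz, hd⟩ := lower_fin K hne _ (fun i => e (f i)) (fun i => y (f i)) (fun i c => by
    obtain ⟨x, hx, hh⟩ := h (f i) (fun j => c (f.symm j))
    refine ⟨x, hx, hh.trans (le_of_eq ?_)⟩
    congr 2
    rw [sum_filter, sum_filter, ← f.toEquiv.sum_comp]
    simp) (fun i => hy _)
  refine ⟨fun a => z (f.symm a), fun a => hz _, ?_⟩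
  rw [← f.toEquiv.prod_comp, ← Matrix.det_submatrix_equiv_self f.toEquiv]
  refine hd.trans (le_of_eq ?_)
  congr 2
  ext a b; simp

lemma lower_gen' {X ι L : Type} [Fintype ι] [DecidableEq ι] [LinearOrder L] (r : ι → L)
    (hr : Function.Injective r) (K : Set X) (hne : K.Nonempty)
    (e : ι → X → ℂ) (y : ι → ℝ)
    (h : ∀ i, ∀ c : ι → ℂ, ∃ x ∈ K, y i ≤ ‖e i x + ∑ j with r j < r i, c j * e j x‖)
    (hy : ∀ i, 0 < y i) :
    ∃ z : ι → X, (∀ a, z a ∈ K) ∧ ∏ i, y i ≤ ‖(Matrix.of fun a b => e b (z a)).det‖ := by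
  let _ : LinearOrder ι := LinearOrder.lift' r hr
  exact lower_gen K hne e y h hy

end Pool.Agent.H.MP_a9f24d_an
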