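import Pool.Agent.H.MP_a9f24d_an.B

set_option autoImplicit false

namespace Pool.Agent.H.MP_a9f24d_an

open Finset MvPolynomial MeasureTheory MonomialOrder Filter Topology
open scoped MonomialOrder

variable {n : ℕ}

def Bd (K : Set (Fin n → ℂ)) (A : ℝ) : Prop :=
  1 ≤ A ∧ ∀ (k : ℕ) (p : MvPolynomial (Fin n) ℂ) (t : ℝ), p.totalDegree ≤ k →
    (∀ x ∈ K, ‖eval x p‖ ≤ t) → ∀ α, ‖coeff α p‖ ≤ t * A ^ k

def YS (K : Set (Fin n → ℂ)) (α : Fin n →₀ ℕ) : Set ℝ :=
  {t | ∃ p : MvPolynomial (Fin n) ℂ, degLex.degree p ≼[degLex] α ∧ coeff α p = 1 ∧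
    ∀ x ∈ K, ‖eval x p‖ ≤ t}

noncomputable def Y (K : Set (Fin n → ℂ)) (α : Fin n →₀ ℕ) : ℝ := sInf (YS K α)

lemma td_le {p : MvPolynomial (Fin n) ℂ} {α : Fin n →₀ ℕ} (h : degLex.degree p ≼[degLex] α) :
    p.totalDegree ≤ α.degree := by
  rw [← degree_degLexDegree]
  exact Finsupp.DegLex.monotone_degree h

lemma bdd_on {K : Set (Fin n → ℂ)} (hK : IsCompact K) (p : MvPolynomial (Fin n) ℂ) :
    ∃ t, ∀ x ∈ K, ‖eval x p‖ ≤ t := by
  obtain ⟨t, ht⟩ := hK.bddAbove_image (p.continuous_eval.norm).continuousOn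
  exact ⟨t, fun x hx => ht ⟨x, hx, rfl⟩⟩

lemma YS_ne {K : Set (Fin n → ℂ)} (hK : IsCompact K) (α : Fin n →₀ ℕ) : (YS K α).Nonempty := by
  obtain ⟨t, ht⟩ := bdd_on hK (monomial α 1)
  exact ⟨t, monomial α 1, degree_monomial_le _, by simp, ht⟩

lemma YS_lb {K : Set (Fin n → ℂ)} {A : ℝ} (hA : Bd K A) (α : Fin n →₀ ℕ) :
    ∀ t ∈ YS K α, (A ^ α.degree)⁻¹ ≤ t := by
  rintro t ⟨p, h1, h2, h3⟩
  have := hA.2 _ p t (td_le h1) h3 α
  rw [h2, norm_one] at this
  have A0 : 0 < A ^ α.degree := pow_pos (by linarith [hA.1]) _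
  rw [inv_le_iff_one_le_mul₀ A0]; exact this

lemma Y_lb {K : Set (Fin n → ℂ)} (hK : IsCompact K) {A : ℝ} (hA : Bd K A) (α : Fin n →₀ ℕ) :
    (A ^ α.degree)⁻¹ ≤ Y K α := le_csInf (YS_ne hK α) (YS_lb hA α)

lemma Y_pos {K : Set (Fin n → ℂ)} (hK : IsCompact K) {A : ℝ} (hA : Bd K A) (α : Fin n →₀ ℕ) :
    0 < Y K α := (inv_pos.2 (pow_pos (by linarith [hA.1]) _)).trans_le (Y_lb hK hA α)

lemma Y_le {K : Set (Fin n → ℂ)} {A : ℝ} (hA : Bd K A) {α : Fin n →₀ ℕ} {t : ℝ} (h : t ∈ YS K α) :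
    Y K α ≤ t := csInf_le ⟨_, YS_lb hA α⟩ h

lemma Y_mul {K : Set (Fin n → ℂ)} (hK : IsCompact K) {A : ℝ} (hA : Bd K A) (α β : Fin n →₀ ℕ) :
    Y K (α + β) ≤ Y K α * Y K β := by
  have h : ∀ s ∈ YS K α, ∀ t ∈ YS K β, Y K (α + β) ≤ s * t := by
    rintro s ⟨p, p1, p2, p3⟩ t ⟨q, q1, q2, q3⟩
    refine Y_le hA ⟨p * q, ?_, ?_, fun x hx => ?_⟩
    · refine degree_mul_le.trans ?_
      rw [map_add, map_add]; exact add_le_add p1 q1
    · rw [coeff_mul_of_add_of_degree_le p1 q1, p2, q2, mul_one]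
    · rw [map_mul, norm_mul]
      exact mul_le_mul (p3 x hx) (q3 x hx) (norm_nonneg _) ((norm_nonneg _).trans (p3 x hx))
  have h2 : ∀ t ∈ YS K β, Y K (α + β) ≤ Y K α * t := fun t ht => by
    have t0 := (Y_pos hK hA β).trans_le (Y_le hA ht)
    rw [← div_le_iff₀ t0]
    exact le_csInf (YS_ne hK α) fun s hs => (div_le_iff₀ t0).2 (h s hs t ht)
  rw [← div_le_iff₀' (Y_pos hK hA α)]
  exact le_csInf (YS_ne hK β) fun s hs => (div_le_iff₀' (Y_pos hK hA α)).2 (h2 s hs)

@[reducible] noncomputable def ord (n k : ℕ) : LinearOrder (Ix n k) :=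
  LinearOrder.lift' (fun a => degLex.toSyn (emb a)) (degLex.toSyn.injective.comp emb_inj)

lemma D_upper {K : Set (Fin n → ℂ)} (hK : IsCompact K) (hne : K.Nonempty) {A : ℝ} (hA : Bd K A) (k : ℕ) :
    D K k ≤ (Fintype.card (Ix n k)).factorial * ∏ c : Ix n k, (2 * Y K (emb c)) := by
  have : ∀ c : Ix n k, ∃ t ∈ YS K (emb c), t < 2 * Y K (emb c) := fun c =>
    exists_lt_of_csInf_lt (YS_ne hK _) (by have := Y_pos hK hA (emb c); change Y K _ < _; linarith)
  choose t ht ht' using this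
  choose p p1 p2 p3 using ht
  obtain ⟨x, hx, e, -⟩ := fekete hK hne k
  let T : Matrix (Ix n k) (Ix n k) ℂ := Matrix.of fun b c => coeff (emb b) (p c)
  have hT : T.det = 1 := by
    letI := ord n k
    rw [Matrix.det_of_isUpperTriangular]
    · simp [T, p2]
    · intro b c hbc
      exact degLex.coeff_eq_zero_of_lt (lt_of_le_of_lt (p1 c) hbc)
  have : ‖(VM x * T).det‖ = D K k := by rw [Matrix.det_mul, hT, mul_one, e]
  rw [← this]
  refine det_le_prod _ _ fun a c => ?_
  have : (VM x * T) a c = eval (x a) (p c) := by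
    rw [eval_eq_sum_Ix ((td_le (p1 c)).trans (sum_emb c)), Matrix.mul_apply]; rfl
  rw [this]
  exact (p3 c _ (hx a)).trans (ht' c).le

lemma D_lower {K : Set (Fin n → ℂ)} (hK : IsCompact K) (hne : K.Nonempty) {A : ℝ} (hA : Bd K A) (k : ℕ) :
    ∏ c : Ix n k, Y K (emb c) ≤ D K k := by
  obtain ⟨z, hz, hd⟩ := lower_gen' (fun a => degLex.toSyn (emb a))
    (degLex.toSyn.injective.comp emb_inj) K hne (fun (b : Ix n k) (z : Fin n → ℂ) => ∏ i, z i ^ ((b.1 i : ℕ)))
    (fun c => Y K (emb c)) (fun i c => by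
      let p : MvPolynomial (Fin n) ℂ := pol fun j => if j = i then 1 else
        if degLex.toSyn (emb j) < degLex.toSyn (emb i) then c j else 0
      obtain ⟨x, hx, hm⟩ := hK.exists_isMaxOn hne (p.continuous_eval.norm).continuousOn
      refine ⟨x, hx, (Y_le hA ⟨p, ?_, ?_, fun y hy => hm hy⟩).trans (le_of_eq ?_)⟩
      · rw [degree_le_iff]
        intro d hd
        obtain ⟨j, rfl⟩ := emb_surj (k := k) d (by
          rw [← Finsupp.degree_eq_sum]; exact (le_totalDegree hd).trans (deg_pol _))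
        rw [mem_support_iff, coeff_pol] at hd
        by_contra hlt
        have h1 := not_le.1 hlt
        have h2 : j ≠ i := by rintro rfl; exact lt_irrefl _ h1
        rw [if_neg h2, if_neg h1.not_gt] at hd
        exact hd rfl
      · rw [coeff_pol]; simp
      · simp only
        congr 1
        rw [eval_pol, sum_filter, ← add_sum_erase _ _ (mem_univ i), ← add_sum_erase _ _ (mem_univ i)]
        simp only [if_true, mul_one, lt_irrefl, if_false, zero_add]
        congr 1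
        refine sum_congr rfl fun j hj => ?_
        rw [if_neg (ne_of_mem_erase hj)]
        split_ifs <;> simp [mul_comm]) (fun c => Y_pos hK hA _)
  obtain ⟨x, hx, e, h⟩ := fekete hK hne k
  exact hd.trans (h z hz)

lemma D_pos {K : Set (Fin n → ℂ)} (hK : IsCompact K) (hne : K.Nonempty) {A : ℝ} (hA : Bd K A) (k : ℕ) :
    0 < D K k := (prod_pos fun _ _ => Y_pos hK hA _).trans_le (D_lower hK hne hA k)

lemma logN (n : ℕ) (C : ℝ) : Tendsto (fun k : ℕ => (C + Real.log (Fintype.card (Ix n k))) / k) atTop (𝓝 0) := by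
  have h1 : Tendsto (fun k : ℕ => C / k) atTop (𝓝 0) := tendsto_const_div_atTop_nhds_zero_nat C
  have h2 : Tendsto (fun k : ℕ => Real.log (Fintype.card (Ix n k)) / k) atTop (𝓝 0) := by
    have h3 : Tendsto (fun k : ℕ => n * (Real.log ((k : ℝ) + 1) / k)) atTop (𝓝 (n * 0)) := by
      refine Tendsto.const_mul _ ?_
      have := (Real.tendsto_pow_log_div_mul_add_atTop 1 (-1) 1 one_ne_zero).comp
        (tendsto_atTop_add_const_right _ 1 tendsto_natCast_atTop_atTop)
      refine this.congr fun k => ?_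
      simp
    rw [mul_zero] at h3
    refine squeeze_zero (fun k => div_nonneg (Real.log_natCast_nonneg _) (by positivity)) (fun k => ?_) h3
    rw [← mul_div_assoc, ← Real.log_pow]
    refine div_le_div_of_nonneg_right (Real.log_le_log (by exact_mod_cast Fintype.card_pos) ?_) (by positivity)
    exact_mod_cast card_le n k
  simpa [add_div] using h1.add h2

lemma log_fact (N : ℕ) : Real.log N.factorial ≤ N * Real.log N := by
  rw [← Real.log_pow]
  exact Real.log_le_log (by exact_mod_cast N.factorial_pos) (by exact_mod_cast N.factorial_le_pow)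

lemma zah {K : Set (Fin n → ℂ)} (hK : IsCompact K) (hne : K.Nonempty) {A : ℝ} (hA : Bd K A) :
    ∃ s : ℝ, Tendsto (fun k : ℕ => Real.log (D K k) / (k * Fintype.card (Ix n k))) atTop (𝓝 s) := by
  have sub := avg_sub' n (fun a => Real.log (Y K a)) fun a b => by
    rw [← Real.log_mul (Y_pos hK hA a).ne' (Y_pos hK hA b).ne']
    exact Real.log_le_log (Y_pos hK hA _) (Y_mul hK hA a b)
  have pos : ∀ k, (0 : ℝ) < Fintype.card (Ix n k) := fun k => by exact_mod_cast Fintype.card_pos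
  have lA : 0 ≤ Real.log A := Real.log_nonneg hA.1
  have lim := sub.tendsto_lim ⟨-Real.log A, by
    rintro _ ⟨k, rfl⟩
    rcases Nat.eq_zero_or_pos k with rfl | hk
    · simpa using lA
    · have k0 : (0 : ℝ) < k := by exact_mod_cast hk
      simp only
      rw [le_div_iff₀ k0, le_div_iff₀ (pos k)]
      refine le_trans (by simp [mul_comm]) (sum_le_sum (f := fun _ => -Real.log A * k) fun a _ => ?_)
      have := Real.log_le_log (inv_pos.2 (pow_pos (by linarith [hA.1]) _)) (Y_lb hK hA (emb a))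
      rw [Real.log_inv, Real.log_pow] at this
      have h2 : ((emb a).degree : ℝ) ≤ k := by exact_mod_cast sum_emb a
      nlinarith⟩
  refine ⟨sub.lim, ?_⟩
  have up := lim.add (logN n (Real.log 2))
  rw [add_zero] at up
  refine tendsto_of_tendsto_of_tendsto_of_le_of_le lim up (fun k => ?_) (fun k => ?_)
  · simp only
    rw [div_div, mul_comm]
    refine div_le_div_of_nonneg_right ?_ (by positivity)
    rw [← Real.log_prod fun a _ => (Y_pos hK hA _).ne']
    exact Real.log_le_log (prod_pos fun _ _ => Y_pos hK hA _) (D_lower hK hne hA k)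
  · simp only
    have h1 := Real.log_le_log (D_pos hK hne hA k) (D_upper hK hne hA k)
    rw [Real.log_mul (by exact_mod_cast (Nat.factorial_pos _).ne')
      (prod_pos fun a _ => mul_pos two_pos (Y_pos hK hA _)).ne',
      Real.log_prod fun a _ => (mul_pos two_pos (Y_pos hK hA _)).ne'] at h1
    simp only [Real.log_mul two_ne_zero (Y_pos hK hA _).ne', sum_add_distrib, sum_const, card_univ,
      nsmul_eq_mul] at h1
    have h2 := log_fact (Fintype.card (Ix n k))
    rw [← add_div, mul_comm, ← div_div]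
    refine div_le_div_of_nonneg_right ?_ (by positivity)
    rw [div_le_iff₀ (pos k), add_mul, div_mul_cancel₀ _ (pos k).ne']
    nlinarith

end Pool.Agent.H.MP_a9f24d_an
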