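import Pool.Agent.H.MP_a9f24d_an.C

set_option autoImplicit false

namespace Pool.Agent.H.MP_a9f24d_an

open Finset MeasureTheory Filter Topology

variable {n : ℕ}

open Polynomial Real Set in
lemma mahler_le (p : ℂ[X]) (M : ℝ) (h : ∀ t : ℂ, ‖t‖ = 1 → ‖eval t p‖ ≤ M) : p.mahlerMeasure ≤ M := by
  have M0 : 0 ≤ M := (norm_nonneg _).trans (h 1 (by simp))
  by_cases hp : p = 0
  · simp [hp, M0]
  have hfin : (volume.restrict (Icc 0 (2 * π))) {x : ℝ | eval (circleMap 0 1 x) p ≠ 0}ᶜ = 0 := by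
    rw [compl_def, Measure.restrict_apply' (by simp)]
    apply (Finite.of_sdiff _ <| finite_singleton (2 * π)).measure_zero
    simp only [ne_eq, mem_ofPred_eq, Decidable.not_not, inter_sdiff_assoc, Icc_sdiff_right]
    rw [ofPred_inter_eq_sep]
    apply Finite.of_finite_image (f := circleMap 0 1) ((Multiset.finite_toSet p.roots).subset _)
      <| fun _ h _ k l ↦ injOn_circleMap_of_abs_sub_le' one_ne_zero (by linarith) h.1 k.1 l
    simp [hp]
  have : 0 < M := by
    by_contra hM
    have : {x : ℝ | eval (circleMap 0 1 x) p ≠ 0}ᶜ = univ := by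
      ext x
      have := h (circleMap 0 1 x) (by simp)
      simp only [mem_compl_iff, mem_ofPred_eq, not_not, mem_univ, iff_true]
      exact norm_le_zero_iff.1 (this.trans (not_lt.1 hM))
    rw [this] at hfin
    simp at hfin
    linarith [pi_pos]
  rw [show M = rexp (circleAverage (fun _ ↦ log M) 0 1)
    by simp [circleAverage_def, mul_assoc, exp_log this], mahlerMeasure_def_of_ne_zero hp,
    circleAverage_def, smul_eq_mul]
  gcongr
  apply intervalIntegral.integral_mono_ae_restrict (by positivity)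
    p.intervalIntegrable_mahlerMeasure (by simp)
  rw [EventuallyLE, eventually_iff_exists_mem]
  use {x : ℝ | eval (circleMap 0 1 x) p ≠ 0}
  constructor
  · exact hfin
  · intro _ _
    gcongr
    exact h _ (by simp)

open Polynomial in
lemma eval_le_mahler (q : ℂ[X]) {m : ℕ} (hq : q.natDegree ≤ m) (T : ℝ) (hT : 0 ≤ T) :
    ‖eval (T : ℂ) q‖ ≤ (1 + T) ^ m * q.mahlerMeasure := by
  rw [eval_eq_sum_range]
  refine (norm_sum_le_of_le _ (n := fun j => T ^ j * 1 ^ (q.natDegree - j) * (q.natDegree.choose j) *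
    q.mahlerMeasure) fun j _ => ?_).trans ?_
  · rw [norm_mul, norm_pow, Complex.norm_real, Real.norm_of_nonneg hT, one_pow, mul_one, mul_comm,
      mul_assoc]
    exact mul_le_mul_of_nonneg_left (norm_coeff_le_choose_mul_mahlerMeasure j q) (by positivity)
  · rw [← sum_mul, ← add_pow, add_comm]
    exact mul_le_mul_of_nonneg_right (pow_le_pow_right₀ (by linarith) hq) q.mahlerMeasure_nonneg

open MvPolynomial

lemma line (p q : MvPolynomial (Fin n) ℂ) {m : ℕ} (hq : q.totalDegree ≤ m) (z0 w : Fin n → ℂ)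
    {r R M : ℝ} (r0 : 0 < r) (R0 : 0 < R) (hw : dist w z0 ≤ R)
    (h : ∀ z ∈ Metric.closedBall z0 r, ‖eval z (p * q)‖ ≤ M) :
    ‖eval z0 p‖ * ‖eval w q‖ ≤ (1 + R / r) ^ m * M := by
  let f : Fin n → Polynomial ℂ := fun i =>
    Polynomial.C (z0 i) + Polynomial.C (((r / R : ℝ) : ℂ) * (w i - z0 i)) * Polynomial.X
  have ev : ∀ (s : MvPolynomial (Fin n) ℂ) (t : ℂ), Polynomial.eval t (aeval f s) =
      eval (z0 + t • ((r / R : ℝ) : ℂ) • (w - z0)) s := by
    intro s t
    induction s using MvPolynomial.induction_on with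
    | C a => simp
    | add a b ha hb => simp [ha, hb]
    | mul_X a i ha =>
      rw [map_mul, Polynomial.eval_mul, ha, map_mul, aeval_X, eval_X]
      simp only [f, Polynomial.eval_add, Polynomial.eval_C, Polynomial.eval_mul, Polynomial.eval_X,
        Pi.add_apply, Pi.smul_apply, Pi.sub_apply, smul_eq_mul]
      ring
  have dq : (aeval f q).natDegree ≤ m := by
    simpa using aeval_natDegree_le q hq f (n := 1) fun i => by
      simp only [f]; compute_degree
  have h1 := eval_le_mahler (aeval f q) dq (R / r) (by positivity)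
  have h2 := eval_le_mahler (aeval f p) le_rfl 0 le_rfl
  have h3 := mahler_le (aeval f (p * q)) M fun t ht => by
    rw [ev]
    apply h
    rw [Metric.mem_closedBall, dist_self_add_left, norm_smul, norm_smul, ht, one_mul, Complex.norm_real,
      Real.norm_of_nonneg (by positivity), ← dist_eq_norm, div_mul_eq_mul_div, div_le_iff₀ R0]
    exact mul_le_mul_of_nonneg_left hw r0.le
  rw [ev, smul_smul, ← Complex.ofReal_mul, show R / r * (r / R) = 1 by field_simp] at h1
  rw [ev] at h2
  simp only [Complex.ofReal_zero, zero_smul, add_zero, one_pow, one_mul, Complex.ofReal_one, one_smul,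
    add_sub_cancel] at h1 h2
  rw [map_mul, Polynomial.mahlerMeasure_mul] at h3
  calc _ ≤ (aeval f p).mahlerMeasure * ((1 + R / r) ^ m * (aeval f q).mahlerMeasure) :=
        mul_le_mul h2 h1 (norm_nonneg _) (Polynomial.mahlerMeasure_nonneg _)
    _ = (1 + R / r) ^ m * ((aeval f p).mahlerMeasure * (aeval f q).mahlerMeasure) := by ring
    _ ≤ _ := mul_le_mul_of_nonneg_left h3 (by positivity)

def Loc (K : Set (Fin n → ℂ)) (z0 : Fin n → ℂ) (r B : ℝ) : Prop :=
  ∀ (k : ℕ) (p : MvPolynomial (Fin n) ℂ) (t : ℝ), p.totalDegree ≤ k →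
    (∀ x ∈ K, ‖eval x p‖ ≤ t) → ∀ z ∈ Metric.closedBall z0 r, ‖eval z p‖ ≤ t * B ^ k

lemma Loc.bd {K : Set (Fin n → ℂ)} {z0 : Fin n → ℂ} {r B : ℝ} (r0 : 0 < r) (B1 : 1 ≤ B)
    (h : Loc K z0 r B) : Bd K ((1 + (1 + ‖z0‖) / r) * B) := by
  have : 0 ≤ (1 + ‖z0‖) / r := by positivity
  refine ⟨by nlinarith, fun k p t hp ht => coeff_bound _ _ fun z hz => ?_⟩
  have := line 1 p hp z0 z r0 (R := 1 + ‖z0‖) (M := t * B ^ k) (by positivity) (by
    rw [dist_eq_norm]
    refine (norm_sub_le _ _).trans ?_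
    have : ‖z‖ ≤ 1 := (pi_norm_le_iff_of_nonneg zero_le_one).2 fun i => (hz i).le
    linarith) (fun z hz => by rw [one_mul]; exact h k p t hp ht z hz)
  rw [map_one, norm_one, one_mul] at this
  rw [mul_pow]; linarith

lemma lagr {K : Set (Fin n → ℂ)} {k : ℕ} {x : Ix n k → Fin n → ℂ} (hx : ∀ a, x a ∈ K)
    (h0 : (VM x).det ≠ 0) (hm : ∀ z : Ix n k → Fin n → ℂ, (∀ a, z a ∈ K) → ‖(VM z).det‖ ≤ ‖(VM x).det‖)
    (c : Ix n k → ℂ) {y : Fin n → ℂ} (hy : y ∈ K) :
    ‖eval y (pol c)‖ ≤ ∑ a, ‖eval (x a) (pol c)‖ := by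
  let e : Ix n k → ℂ := fun b => ∏ i, y i ^ ((b.1 i : ℕ))
  have h1 := Matrix.mulVec_cramer (VM x).transpose e
  have h2 : ∀ a, ‖Matrix.cramer (VM x).transpose e a‖ ≤ ‖(VM x).det‖ := fun a => by
    rw [Matrix.cramer_transpose_apply]
    have : (VM x).updateRow a e = VM (Function.update x a y) := by
      ext a' b
      by_cases h : a' = a
      · subst h; simp [VM, e]
      · simp [VM, h]
    rw [this]
    exact hm _ fun a' => by
      by_cases h : a' = a
      · subst h; simpa using hy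
      · simpa [h] using hx a'
  have h3 : (VM x).det * eval y (pol c) = ∑ a, Matrix.cramer (VM x).transpose e a * eval (x a) (pol c) := by
    simp only [eval_pol, mul_sum]
    rw [sum_comm]
    refine sum_congr rfl fun b _ => ?_
    have := congrFun h1 b
    simp only [Matrix.mulVec, dotProduct, Matrix.transpose_apply, Matrix.det_transpose, Pi.smul_apply,
      smul_eq_mul] at this
    rw [← mul_assoc]
    change (VM x).det * e b * c b = _
    rw [← this, sum_mul]
    refine sum_congr rfl fun a _ => ?_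
    simp only [VM, Matrix.of_apply]; ring
  refine le_of_mul_le_mul_left ?_ (norm_pos_iff.2 h0)
  rw [← norm_mul, h3, mul_sum]
  refine norm_sum_le_of_le _ fun a _ => ?_
  rw [norm_mul]
  exact mul_le_mul_of_nonneg_right (h2 a) (norm_nonneg _)

lemma adapt {ι : Type} [Fintype ι] [DecidableEq ι] (W : Submodule ℂ (EuclideanSpace ℂ ι)) :
    ∃ U : Matrix ι ι ℂ, ‖U.det‖ = 1 ∧ (∀ a j, ‖U a j‖ ≤ 1) ∧ ∃ s : Finset ι,
      s.card = Module.finrank ℂ W ∧ ∀ j ∈ s, ∃ v ∈ W, ∀ a, U a j = v a := by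
  have hle : Module.finrank ℂ W ≤ (univ : Finset ι).card := by
    simpa using W.finrank_le
  obtain ⟨s, -, hs⟩ := exists_subset_card_eq hle
  let e := s.equivFinOfCardEq hs
  let w := stdOrthonormalBasis ℂ W
  let v : ι → EuclideanSpace ℂ ι := fun i => if h : i ∈ s then w (e ⟨i, h⟩) else 0
  have hv : Orthonormal ℂ ((s : Set ι).domRestrict v) := by
    have h1 := (W.subtypeₗᵢ.orthonormal_comp_iff.2 w.orthonormal).comp e e.injective
    have h2 : (s : Set ι).domRestrict v = (W.subtypeₗᵢ ∘ w) ∘ e := by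
      funext i
      have : i.1 ∈ s := i.2
      simp [v, this]
    rw [h2]; exact h1
  obtain ⟨b, hb⟩ := hv.exists_orthonormalBasis_extension_of_card_eq (by simp)
  refine ⟨Matrix.of fun a j => b j a, ?_, fun a j => ?_, s, hs, fun j hj => ⟨b j, ?_, fun a => rfl⟩⟩
  · rw [← (EuclideanSpace.basisFun ι ℂ).det_to_matrix_orthonormalBasis b, Module.Basis.det_apply]
    congr 2
  · exact (PiLp.norm_apply_le (b j) a).trans (b.orthonormal.1 j).le
  · rw [hb j hj]
    simp [v, hj]

lemma int_cont {X : Type} [TopologicalSpace X] [MeasurableSpace X] [OpensMeasurableSpace X] [T2Space X]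
    {K : Set X} (hK : IsCompact K) (ν : Measure X) [IsFiniteMeasure ν] (hν : ∀ᵐ x ∂ν, x ∈ K)
    {f : X → ℝ} (hf : Continuous f) : Integrable f ν := by
  have := hf.continuousOn.integrableOn_compact (μ := ν) hK
  rwa [IntegrableOn, Measure.restrict_eq_self_of_ae_mem hν] at this

end Pool.Agent.H.MP_a9f24d_an
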