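import Pool.Agent.H.MP_a9f24d_an.D

set_option autoImplicit false

namespace Pool.Agent.H.MP_a9f24d_an

open Finset MeasureTheory Filter Topology MvPolynomial

variable {n : ℕ}

noncomputable def Z (ν : Measure (Fin n → ℂ)) (k : ℕ) : ℝ :=
  ∫ z, ‖(VM z).det‖ ^ 2 ∂(Measure.pi (fun _ : Ix n k => ν))

lemma Z_nonneg (ν : Measure (Fin n → ℂ)) (k : ℕ) : 0 ≤ Z ν k := integral_nonneg fun _ => by positivity

lemma ae_pi {K : Set (Fin n → ℂ)} (ν : Measure (Fin n → ℂ)) [IsFiniteMeasure ν]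
    (hν : ∀ᵐ x ∂ν, x ∈ K) (k : ℕ) : ∀ᵐ z ∂(Measure.pi (fun _ : Ix n k => ν)), ∀ a, z a ∈ K :=
  eventually_all.2 fun _ => Measure.tendsto_eval_ae_ae.eventually hν

lemma Z_le {K : Set (Fin n → ℂ)} (hK : IsCompact K) (hne : K.Nonempty) (ν : Measure (Fin n → ℂ))
    [IsFiniteMeasure ν] (hν : ∀ᵐ x ∂ν, x ∈ K) (k : ℕ) :
    Z ν k ≤ D K k ^ 2 * (1 + ν.real Set.univ) ^ Fintype.card (Ix n k) := by
  obtain ⟨x, -, -, h⟩ := fekete hK hne k
  refine (Real.le_norm_self _).trans ((norm_integral_le_of_norm_le_const (C := D K k ^ 2)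
    ((ae_pi ν hν k).mono fun z hz => ?_)).trans ?_)
  · rw [norm_pow, norm_norm]
    exact pow_le_pow_left₀ (norm_nonneg _) (h z hz) 2
  · refine mul_le_mul_of_nonneg_left ?_ (by positivity)
    rw [Measure.real, Measure.pi_univ, prod_const, ENNReal.toReal_pow, card_univ]
    exact pow_le_pow_left₀ ENNReal.toReal_nonneg (le_add_of_nonneg_left zero_le_one) _

lemma upd_VM {k : ℕ} (z : Ix n k → Fin n → ℂ) (a : Ix n k) :
    ∃ p : MvPolynomial (Fin n) ℂ, p.totalDegree ≤ k ∧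
      ∀ y, (VM (Function.update z a y)).det = eval y p := by
  refine ⟨pol fun b => (VM z).adjugate b a, deg_pol _, fun y => ?_⟩
  have : VM (Function.update z a y) = (VM z).updateRow a fun b => ∏ i, y i ^ ((b.1 i : ℕ)) := by
    ext a' b
    by_cases h : a' = a
    · subst h; simp [VM]
    · simp [VM, h]
  rw [this, ← Matrix.cramer_transpose_apply, Matrix.cramer_eq_adjugate_mulVec, eval_pol,
    ← Matrix.adjugate_transpose]
  simp [Matrix.mulVec, dotProduct, mul_comm]

lemma Z_ge {K : Set (Fin n → ℂ)} (hK : IsCompact K) (hne : K.Nonempty) (ν : Measure (Fin n → ℂ))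
    [IsFiniteMeasure ν] (hν : ∀ᵐ x ∂ν, x ∈ K) (k : ℕ) {M : ℝ} (M0 : 0 ≤ M)
    (h : ∀ p : MvPolynomial (Fin n) ℂ, p.totalDegree ≤ k → ∀ x ∈ K,
      ‖eval x p‖ ^ 2 ≤ M * ∫ y, ‖eval y p‖ ^ 2 ∂ν) :
    D K k ^ 2 ≤ M ^ Fintype.card (Ix n k) * Z ν k := by
  obtain ⟨x, hx, e, -⟩ := fekete hK hne k
  let F : (Ix n k → Fin n → ℂ) → ENNReal := fun z => ENNReal.ofReal (‖(VM z).det‖ ^ 2)
  have hF : Measurable F := ((cont_det k).norm.pow 2).measurable.ennreal_ofReal
  have step : ∀ (z : Ix n k → Fin n → ℂ) (a : Ix n k), z a ∈ K →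
      F z ≤ ENNReal.ofReal M * ∫⁻ y, F (Function.update z a y) ∂ν := by
    intro z a ha
    obtain ⟨p, hp, hp'⟩ := upd_VM z a
    have h1 := h p hp _ ha
    have h2 := hp' (z a)
    rw [Function.update_eq_self] at h2
    simp only [F, hp', h2]
    rw [← ofReal_integral_eq_lintegral_ofReal (int_cont hK ν hν (f := fun y => ‖eval y p‖ ^ 2)
      (p.continuous_eval.norm.pow 2))
      (Eventually.of_forall fun _ => by positivity), ← ENNReal.ofReal_mul M0]
    exact ENNReal.ofReal_le_ofReal h1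
  have ind : ∀ s : Finset (Ix n k), F x ≤ ENNReal.ofReal M ^ s.card *
      (lmarginal (fun _ => ν) s F) x := by
    intro s
    induction s using Finset.induction_on with
    | empty => simp
    | insert a s ha ih =>
      refine ih.trans ?_
      rw [card_insert_of_notMem ha, pow_succ, mul_assoc, lmarginal_insert' _ hF ha]
      gcongr
      simp only [lmarginal]
      rw [← lintegral_const_mul' _ _ ENNReal.ofReal_ne_top]
      refine lintegral_mono fun y => step _ a ?_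
      simpa [Function.updateFinset, ha] using hx a
  have h1 := ind univ
  rw [lmarginal_univ] at h1
  simp only [F] at h1
  rw [← ofReal_integral_eq_lintegral_ofReal (int_cont (isCompact_univ_pi fun _ : Ix n k => hK) _
      ((ae_pi ν hν k).mono fun z hz a _ => hz a) (f := fun z => ‖(VM z).det‖ ^ 2)
      ((cont_det k).norm.pow 2))
      (Eventually.of_forall fun _ => by positivity), ← ENNReal.ofReal_pow M0,
      ← ENNReal.ofReal_mul (by positivity), e, card_univ] at h1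
  exact (ENNReal.ofReal_le_ofReal_iff (mul_nonneg (by positivity) (Z_nonneg ν k))).1 h1

lemma det_sq {ι : Type} [Fintype ι] [DecidableEq ι] (M : Matrix ι ι ℂ) :
    ‖M.det‖ ^ 2 ≤ ((Fintype.card ι).factorial : ℝ) * ∑ σ : Equiv.Perm ι, ∏ a, ‖M (σ a) a‖ ^ 2 := by
  have h1 : ‖M.det‖ ≤ ∑ σ : Equiv.Perm ι, ∏ a, ‖M (σ a) a‖ := by
    rw [Matrix.det_apply']
    refine norm_sum_le_of_le _ fun σ _ => ?_
    have : ‖((Equiv.Perm.sign σ : ℤ) : ℂ)‖ = 1 := by
      rcases Int.units_eq_one_or (Equiv.Perm.sign σ) with h | h <;> simp [h]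
    rw [norm_mul, norm_prod, this, one_mul]
  have h2 := sq_sum_le_card_mul_sum_sq (s := (univ : Finset (Equiv.Perm ι)))
    (f := fun σ => ∏ a, ‖M (σ a) a‖)
  rw [card_univ, Fintype.card_perm] at h2
  simp only [← prod_pow] at h2
  exact (pow_le_pow_left₀ (norm_nonneg _) h1 2).trans h2

lemma int_det {ι X : Type} [Fintype ι] [DecidableEq ι] [MeasurableSpace X] (ν : Measure X)
    [IsFiniteMeasure ν] (g : ι → X → ℂ) (hg : ∀ j, Integrable (fun x => ‖g j x‖ ^ 2) ν) :
    ∫ z, ‖(Matrix.of fun j a => g j (z a)).det‖ ^ 2 ∂(Measure.pi (fun _ : ι => ν)) ≤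
      ((Fintype.card ι).factorial : ℝ) ^ 2 * ∏ j, ∫ x, ‖g j x‖ ^ 2 ∂ν := by
  have hi : ∀ σ : Equiv.Perm ι, Integrable (fun z : ι → X => ∏ a, ‖g (σ a) (z a)‖ ^ 2)
      (Measure.pi (fun _ : ι => ν)) := fun σ =>
    Integrable.fintype_prod (f := fun a x => ‖g (σ a) x‖ ^ 2) fun a => hg _
  have h2 : Integrable (fun z : ι → X => ((Fintype.card ι).factorial : ℝ) *
      ∑ σ : Equiv.Perm ι, ∏ a, ‖g (σ a) (z a)‖ ^ 2) (Measure.pi (fun _ : ι => ν)) :=
    (integrable_finsetSum _ fun σ _ => hi σ).const_mul _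
  have h3 := integral_mono_of_nonneg
    (f := fun z : ι → X => ‖(Matrix.of fun j a => g j (z a)).det‖ ^ 2)
    (Eventually.of_forall fun _ => sq_nonneg _) h2
    (Eventually.of_forall fun z => det_sq (Matrix.of fun j a => g j (z a)))
  refine h3.trans (le_of_eq ?_)
  rw [integral_const_mul, integral_finsetSum _ fun σ _ => hi σ]
  have : ∀ σ : Equiv.Perm ι, ∫ z : ι → X, ∏ a, ‖g (σ a) (z a)‖ ^ 2 ∂(Measure.pi (fun _ : ι => ν)) =
      ∏ j, ∫ x, ‖g j x‖ ^ 2 ∂ν := fun σ => by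
    rw [integral_fintype_prod_eq_prod (fun a x => ‖g (σ a) x‖ ^ 2)]
    exact Equiv.prod_comp σ fun j => ∫ x, ‖g j x‖ ^ 2 ∂ν
  simp only [this]
  rw [sum_const, card_univ, Fintype.card_perm, nsmul_eq_mul]
  ring

lemma Z_up {K : Set (Fin n → ℂ)} (hK : IsCompact K) (hne : K.Nonempty) (ν : Measure (Fin n → ℂ))
    [IsFiniteMeasure ν] (hν : ∀ᵐ x ∂ν, x ∈ K) (k m : ℕ) (hD : 0 < D K (k + m))
    {p : MvPolynomial (Fin n) ℂ} (hp : p.totalDegree ≤ k) (p0 : p ≠ 0) {G : ℝ} (G0 : 0 ≤ G)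
    (h : ∀ q : MvPolynomial (Fin n) ℂ, q.totalDegree ≤ m → ∀ t : ℝ, (∀ x ∈ K, ‖eval x (p * q)‖ ≤ t) →
      ∫ y, ‖eval y (p * q)‖ ^ 2 ∂ν ≤ G * t ^ 2) :
    Z ν (k + m) ≤ D K (k + m) ^ 2 * ((Fintype.card (Ix n (k + m))).factorial : ℝ) ^ 2 *
      ((Fintype.card (Ix n (k + m)) : ℝ) ^ 2 * (1 + ν.real Set.univ)) ^ Fintype.card (Ix n (k + m)) *
      G ^ Fintype.card (Ix n m) := by
  obtain ⟨x, hx, e, hm⟩ := fekete hK hne (k + m)
  have d0 : (VM x).det ≠ 0 := norm_pos_iff.1 (e ▸ hD)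
  have hu : IsUnit (VM x).det := isUnit_iff_ne_zero.2 d0
  have inj : ∀ c c' : Ix n (k + m) → ℂ, (∀ a, eval (x a) (pol c) = eval (x a) (pol c')) → c = c' := by
    intro c c' hc
    apply Matrix.mulVec_injective_iff_isUnit.2 ((Matrix.isUnit_iff_isUnit_det _).2 hu)
    funext a
    simpa [eval_pol, Matrix.mulVec, dotProduct, VM] using hc a
  have dg : ∀ c : Ix n m → ℂ, (p * pol c).totalDegree ≤ k + m := fun c =>
    (totalDegree_mul _ _).trans (add_le_add hp (deg_pol c))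
  let ev : (Ix n m → ℂ) →ₗ[ℂ] EuclideanSpace ℂ (Ix n (k + m)) :=
    { toFun := fun c => WithLp.toLp 2 fun a => eval (x a) (p * pol c)
      map_add' := fun c c' => by
        ext a; simp [eval_pol, mul_add, sum_add_distrib]
      map_smul' := fun r c => by
        ext a; simp [eval_pol, mul_sum, mul_left_comm] }
  have evi : Function.Injective ev := by
    rw [injective_iff_map_eq_zero]
    intro c hc
    have h1 := inj (fun b => coeff (emb b) (p * pol c)) 0 fun a => by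
      rw [pol_coeff (dg c)]
      have : eval (x a) (p * pol c) = 0 := congrArg (fun v : EuclideanSpace ℂ (Ix n (k + m)) => v a) hc
      rw [this]; simp [eval_pol]
    have h2 : p * pol c = 0 := by
      rw [← pol_coeff (dg c), h1]; simp [pol]
    have h3 := (mul_eq_zero.1 h2).resolve_left p0
    funext b
    rw [← coeff_pol c b, h3]; simp
  obtain ⟨U, U1, U2, s, hs, hs'⟩ := adapt (LinearMap.range ev)
  rw [LinearMap.finrank_range_of_inj evi, Module.finrank_fintype_fun_eq_card] at hs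
  let T := (VM x)⁻¹ * U
  have hT : VM x * T = U := Matrix.mul_nonsing_inv_cancel_left _ _ hu
  let B : Ix n (k + m) → MvPolynomial (Fin n) ℂ := fun j => pol fun b => T b j
  have hB : ∀ (z : Ix n (k + m) → Fin n → ℂ) a j, eval (z a) (B j) = (VM z * T) a j := fun z a j => by
    rw [eval_pol, Matrix.mul_apply]; rfl
  have hB2 : ∀ j, ∀ y ∈ K, ‖eval y (B j)‖ ≤ Fintype.card (Ix n (k + m)) := fun j y hy => by
    refine (lagr hx d0 (fun z hz => e ▸ hm z hz) _ hy).trans ?_
    refine (sum_le_sum (g := fun _ => (1 : ℝ)) fun a _ => ?_).trans (by simp)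
    rw [hB x a j, hT]; exact U2 a j
  have hdet : ∀ z : Ix n (k + m) → Fin n → ℂ, ‖(VM z).det‖ ^ 2 =
      D K (k + m) ^ 2 * ‖(Matrix.of fun j a => eval (z a) (B j)).det‖ ^ 2 := fun z => by
    have h1 : (Matrix.of fun j a => eval (z a) (B j)) = (VM z * T).transpose := by
      ext j a; exact hB z a j
    have h2 : D K (k + m) * ‖T.det‖ = 1 := by rw [← e, ← norm_mul, ← Matrix.det_mul, hT, U1]
    rw [h1, Matrix.det_transpose, Matrix.det_mul, norm_mul, ← mul_pow, mul_left_comm, h2, mul_one]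
  have hi : ∀ j, Integrable (fun y => ‖eval y (B j)‖ ^ 2) ν := fun j =>
    int_cont hK ν hν ((B j).continuous_eval.norm.pow 2)
  simp only [Z, hdet]
  rw [integral_const_mul, mul_assoc, mul_assoc]
  refine mul_le_mul_of_nonneg_left ((int_det ν (fun j y => eval y (B j)) hi).trans
    (mul_le_mul_of_nonneg_left ?_ (by positivity))) (by positivity)
  have v0 : 0 ≤ ν.real Set.univ := measureReal_nonneg
  have : ∀ j, ∫ y, ‖eval y (B j)‖ ^ 2 ∂ν ≤ ((Fintype.card (Ix n (k + m)) : ℝ) ^ 2 *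
      (1 + ν.real Set.univ)) * if j ∈ s then G else 1 := fun j => by
    split_ifs with hj
    · obtain ⟨_, ⟨c, rfl⟩, hc⟩ := hs' j hj
      have : B j = p * pol c := by
        rw [← pol_coeff (dg c)]
        refine congrArg pol (inj _ _ fun a => ?_)
        rw [pol_coeff (dg c)]
        exact (hB x a j).trans (hT ▸ hc a)
      have h1 := h (pol c) (deg_pol c) _ (this ▸ hB2 j)
      rw [this]
      refine h1.trans ?_
      have : 0 ≤ (Fintype.card (Ix n (k + m)) : ℝ) ^ 2 * ν.real Set.univ * G := by positivity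
      nlinarith
    · refine (Real.le_norm_self _).trans ((norm_integral_le_of_norm_le_const
        (C := (Fintype.card (Ix n (k + m)) : ℝ) ^ 2) (hν.mono fun y hy => ?_)).trans ?_)
      · rw [norm_pow, norm_norm]
        exact pow_le_pow_left₀ (norm_nonneg _) (hB2 j y hy) 2
      · rw [mul_one]
        exact mul_le_mul_of_nonneg_left (by linarith) (by positivity)
  refine (prod_le_prod (fun j _ => integral_nonneg fun _ => by positivity) fun j _ => this j).trans
    (le_of_eq ?_)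
  rw [prod_mul_distrib, prod_const, card_univ, prod_ite_mem, univ_inter, prod_const, hs]

end Pool.Agent.H.MP_a9f24d_an
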