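import Pool.Agent.H.MP_a9f24d_an.E

set_option autoImplicit false

namespace Pool.Agent.H.MP_a9f24d_an

open Finset MeasureTheory Filter Topology MvPolynomial

variable {n : ℕ}

lemma core {K : Set (Fin n → ℂ)} (hK : IsCompact K) (hne : K.Nonempty) (ν : Measure (Fin n → ℂ))
    [IsFiniteMeasure ν] (hν : ∀ᵐ x ∂ν, x ∈ K) (hD : ∀ k, 0 < D K k) (hZ : ∀ᶠ k in atTop, 0 < Z ν k)
    (hl : Tendsto (fun k : ℕ => Real.log (Z ν k) / (2 * (k * Fintype.card (Ix n k))) -
      Real.log (D K k) / (k * Fintype.card (Ix n k))) atTop (𝓝 0))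
    {r R B ε : ℝ} (r0 : 0 < r) (R0 : 0 < R) (B1 : 1 ≤ B) (e0 : 0 < ε) :
    ∃ k0 : ℕ, ∀ k ≥ k0, ∀ z0, (∀ w ∈ K, dist w z0 ≤ R) → Loc K z0 r B →
      ∀ p : MvPolynomial (Fin n) ℂ, p.totalDegree ≤ k →
        ‖eval z0 p‖ ^ 2 ≤ (B * (1 + ε)) ^ (2 * k) * ∫ y, ‖eval y p‖ ^ 2 ∂ν := by
  obtain ⟨A, hA⟩ : ∃ A, A = 1 + R / r := ⟨_, rfl⟩
  have A1 : 1 ≤ A := by rw [hA]; exact le_add_of_nonneg_right (by positivity)
  obtain ⟨L, L1, hL⟩ : ∃ L : ℕ, 1 ≤ L ∧ (A * B) ^ 2 ≤ (1 + ε) ^ L := by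
    obtain ⟨L, hL⟩ := pow_unbounded_of_one_lt ((A * B) ^ 2) (show 1 < 1 + ε by linarith)
    exact ⟨L + 1, by omega, hL.le.trans (pow_le_pow_right₀ (by linarith) (by omega))⟩
  have v0 : 0 ≤ ν.real Set.univ := measureReal_nonneg
  have le0 : 0 < Real.log (1 + ε) := Real.log_pos (by linarith)
  have h1 := hl.sub ((logN n (Real.log (1 + ν.real Set.univ) / 4)).const_mul 2)
  rw [mul_zero, sub_zero] at h1
  obtain ⟨k0, hk0⟩ := eventually_atTop.1 (hZ.and (h1.eventually_const_lt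
    (show -(Real.log (1 + ε) / (4 * ((L : ℝ) + 1) ^ n)) < 0 from neg_neg_of_pos (by positivity))))
  refine ⟨k0 + 1, fun k hk z0 hR hloc p hp => ?_⟩
  by_contra! H
  obtain ⟨I, hI⟩ : ∃ I, I = ∫ y, ‖eval y p‖ ^ 2 ∂ν := ⟨_, rfl⟩
  have I0 : 0 ≤ I := hI ▸ integral_nonneg fun _ => by positivity
  rw [← hI] at H
  have z0p : 0 < ‖eval z0 p‖ ^ 2 := lt_of_le_of_lt (by positivity) H
  have p0 : p ≠ 0 := by rintro rfl; simp at z0p
  obtain ⟨m, hm⟩ : ∃ m, m = k / L := ⟨_, rfl⟩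
  have m1 : L * m ≤ k := hm ▸ Nat.mul_div_le k L
  have m2 : k < L * (m + 1) := hm ▸ Nat.lt_mul_div_succ k L1
  have m3 : m ≤ k := hm ▸ Nat.div_le_self k L
  have up := Z_up hK hne ν hν k m (hD _) hp p0 (G := ((1 + ε) ^ k)⁻¹) (by positivity) fun q hq t ht => by
    have t0 : 0 ≤ t := (norm_nonneg _).trans (ht _ hne.some_mem)
    have b1 : ∀ w ∈ K, ‖eval z0 p‖ * ‖eval w q‖ ≤ A ^ m * (t * B ^ (k + m)) := fun w hw =>
      hA ▸ line p q hq z0 w r0 R0 (hR w hw)
        (hloc (k + m) _ t ((totalDegree_mul _ _).trans (add_le_add hp hq)) ht)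
    have b2 : ‖eval z0 p‖ ^ 2 * ∫ y, ‖eval y (p * q)‖ ^ 2 ∂ν ≤ (A ^ m * (t * B ^ (k + m))) ^ 2 * I := by
      rw [hI, ← integral_const_mul, ← integral_const_mul]
      refine integral_mono_of_nonneg (Eventually.of_forall fun _ => by positivity)
        ((int_cont hK ν hν (f := fun y => ‖eval y p‖ ^ 2) (p.continuous_eval.norm.pow 2)).const_mul _)
        (hν.mono fun y hy => ?_)
      have := pow_le_pow_left₀ (by positivity) (b1 y hy) 2
      simp only [map_mul, norm_mul]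
      calc _ = (‖eval z0 p‖ * ‖eval y q‖) ^ 2 * ‖eval y p‖ ^ 2 := by ring
        _ ≤ _ := mul_le_mul_of_nonneg_right this (by positivity)
    have b3 : ((A * B) ^ 2) ^ m ≤ (1 + ε) ^ k := by
      refine (pow_le_pow_left₀ (by positivity) hL m).trans ?_
      rw [← pow_mul]
      exact pow_le_pow_right₀ (by linarith) m1
    refine le_of_mul_le_mul_left (b2.trans ?_) z0p
    have e1 : (0 : ℝ) < (1 + ε) ^ k := by positivity
    calc _ = ((A * B) ^ 2) ^ m * (t ^ 2 * (B ^ (2 * k) * I)) := by ring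
      _ ≤ (1 + ε) ^ k * (t ^ 2 * (B ^ (2 * k) * I)) := mul_le_mul_of_nonneg_right b3 (by positivity)
      _ = ((B * (1 + ε)) ^ (2 * k) * I) * (((1 + ε) ^ k)⁻¹ * t ^ 2) := by
          rw [mul_pow B, mul_comm 2 k, pow_mul (1 + ε)]
          generalize (1 + ε) ^ k = E at e1
          field_simp
      _ ≤ _ := mul_le_mul_of_nonneg_right H.le (by positivity)
  obtain ⟨zp, hlt⟩ := hk0 (k + m) (by omega)
  have cr : (Fintype.card (Ix n (k + m)) : ℝ) ≤ Fintype.card (Ix n m) * ((L : ℝ) + 1) ^ n := by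
    exact_mod_cast card_ratio n (k + m) m (L + 1) (by omega) (by nlinarith)
  obtain ⟨N, hN⟩ : ∃ N : ℕ, N = Fintype.card (Ix n (k + m)) := ⟨_, rfl⟩
  have N0 : (0 : ℝ) < N := by rw [hN]; exact_mod_cast Fintype.card_pos
  obtain ⟨M, hM⟩ : ∃ N : ℕ, N = Fintype.card (Ix n m) := ⟨_, rfl⟩
  rw [← hN, ← hM] at up cr
  rw [← hN] at hlt
  have f0 : (0 : ℝ) < N.factorial := by exact_mod_cast N.factorial_pos
  have d0 := hD (k + m)
  have lg := Real.log_le_log zp up
  rw [Real.log_mul (by positivity) (by positivity), Real.log_mul (by positivity) (by positivity),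
    Real.log_mul (by positivity) (by positivity), Real.log_pow, Real.log_pow, Real.log_pow,
    Real.log_pow, Real.log_mul (by positivity) (by positivity), Real.log_pow, Real.log_inv,
    Real.log_pow] at lg
  have lf := log_fact N
  have k1 : (1 : ℝ) ≤ k := by exact_mod_cast (show 1 ≤ k by omega)
  have m4 : (m : ℝ) ≤ k := by exact_mod_cast m3
  have m5 : (0 : ℝ) ≤ m := by positivity
  push_cast at hlt lg
  have km : (0 : ℝ) < k + m := by positivity
  have P0 : (0 : ℝ) < ((L : ℝ) + 1) ^ n := by positivity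
  have e2 : Real.log (Z ν (k + m)) / (2 * ((k + m) * N)) - Real.log (D K (k + m)) / ((k + m) * N) -
      2 * ((Real.log (1 + ν.real Set.univ) / 4 + Real.log N) / (k + m)) =
      (Real.log (Z ν (k + m)) - 2 * Real.log (D K (k + m)) - N * Real.log (1 + ν.real Set.univ) -
        4 * N * Real.log N) / (2 * ((k + m) * N)) := by
    field_simp; ring
  rw [e2, lt_div_iff₀ (by positivity)] at hlt
  have e3 : Real.log (1 + ε) / (4 * ((L : ℝ) + 1) ^ n) * (2 * ((k + m) * N)) ≤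
      M * (k * Real.log (1 + ε)) := by
    rw [div_mul_eq_mul_div, div_le_iff₀ (by positivity)]
    have : (k + m) * (N : ℝ) ≤ (2 * k) * (M * ((L : ℝ) + 1) ^ n) :=
      mul_le_mul (by linarith) cr N0.le (by positivity)
    nlinarith
  nlinarith

lemma conv {f : ℕ → ℝ} {c s : ℝ} (c0 : 0 < c) {g : ℕ → ℝ} (hf : ∀ᶠ k in atTop, 0 < f k)
    (h : Tendsto (fun k => Real.log (f k) / g k) atTop (𝓝 s)) :
    Tendsto (fun k => f k ^ ((1 : ℝ) / (c * g k))) atTop (𝓝 (Real.exp (s / c))) := by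
  refine (Real.continuous_exp.tendsto _ |>.comp (h.div_const c)).congr' (hf.mono fun k hk => ?_)
  simp only [Function.comp]
  rw [Real.rpow_def_of_pos hk, div_div, mul_one_div, mul_comm]

lemma conv' {f : ℕ → ℝ} {c s : ℝ} (c0 : 0 < c) {g : ℕ → ℝ} (hf : ∀ k, 0 ≤ f k)
    (hg : ∀ᶠ k in atTop, 0 < g k)
    (h : Tendsto (fun k => f k ^ ((1 : ℝ) / (c * g k))) atTop (𝓝 (Real.exp (s / c)))) :
    (∀ᶠ k in atTop, 0 < f k) ∧ Tendsto (fun k => Real.log (f k) / g k) atTop (𝓝 s) := by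
  have h1 : ∀ᶠ k in atTop, 0 < f k := by
    filter_upwards [h.eventually_const_lt (Real.exp_pos _), hg] with k hk hk'
    refine (hf k).lt_of_ne fun e => ?_
    rw [← e, Real.zero_rpow (by positivity)] at hk
    exact lt_irrefl _ hk
  refine ⟨h1, ?_⟩
  have h2 := (h.log (Real.exp_pos _).ne').const_mul c
  rw [Real.log_exp, mul_div_cancel₀ _ c0.ne'] at h2
  refine h2.congr' (h1.mono fun k hk => ?_)
  simp only
  rw [Real.log_rpow hk]
  field_simp

lemma g_pos (n : ℕ) : ∀ᶠ k : ℕ in atTop, (0 : ℝ) < k * Fintype.card (Ix n k) :=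
  (eventually_gt_atTop 0).mono fun k hk =>
    mul_pos (by exact_mod_cast hk) (by exact_mod_cast Fintype.card_pos)

/-- From the two limits to the logarithmic form. -/
lemma of_lims (hn : 1 ≤ n) {K : Set (Fin n → ℂ)} (hK : IsCompact K) (hne : K.Nonempty) {A : ℝ}
    (hA : Bd K A) (ν : Measure (Fin n → ℂ)) {d : ℝ}
    (h1 : Tendsto (fun k => D K k ^ ((1 : ℝ) / ell n k)) atTop (𝓝 d))
    (h2 : Tendsto (fun k => Z ν k ^ ((1 : ℝ) / (2 * ell n k))) atTop (𝓝 d)) :
    (∀ᶠ k in atTop, 0 < Z ν k) ∧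
    Tendsto (fun k : ℕ => Real.log (Z ν k) / (2 * (k * Fintype.card (Ix n k))) -
      Real.log (D K k) / (k * Fintype.card (Ix n k))) atTop (𝓝 0) := by
  obtain ⟨c, c0, -, hc⟩ := ell_eq hn
  obtain ⟨s, hs⟩ := zah hK hne hA
  have h3 := conv c0 (Eventually.of_forall (D_pos hK hne hA)) hs
  simp only [hc, mul_assoc] at h1
  have e := tendsto_nhds_unique h1 h3
  simp only [hc, mul_assoc, mul_left_comm (2 : ℝ) c, e] at h2
  obtain ⟨a, b⟩ := conv' c0 (Z_nonneg ν) ((g_pos n).mono fun k hk => mul_pos two_pos hk) h2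
  exact ⟨a, by simpa using b.sub hs⟩

lemma to_lims (hn : 1 ≤ n) {K : Set (Fin n → ℂ)} (hK : IsCompact K) (hne : K.Nonempty) {A : ℝ}
    (hA : Bd K A) (ν : Measure (Fin n → ℂ)) [IsFiniteMeasure ν] (hν : ∀ᵐ x ∂ν, x ∈ K)
    (h : ∀ ε : ℝ, 0 < ε → ∃ C : ℝ, ∀ (k : ℕ) (p : MvPolynomial (Fin n) ℂ), p.totalDegree ≤ k →
        ∀ x ∈ K, ‖eval x p‖ ^ 2 ≤ C * (1 + ε) ^ (2 * k) * ∫ y, ‖eval y p‖ ^ 2 ∂ν) :
    ∃ d, Tendsto (fun k => D K k ^ ((1 : ℝ) / ell n k)) atTop (𝓝 d) ∧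
      Tendsto (fun k => Z ν k ^ ((1 : ℝ) / (2 * ell n k))) atTop (𝓝 d) := by
  obtain ⟨c, c0, -, hc⟩ := ell_eq hn
  obtain ⟨s, hs⟩ := zah hK hne hA
  have dp := D_pos hK hne hA
  have low : ∀ ε : ℝ, 0 < ε → ∃ C : ℝ, 0 < C ∧ ∀ k, D K k ^ 2 ≤
      (C * (1 + ε) ^ (2 * k)) ^ Fintype.card (Ix n k) * Z ν k := by
    intro ε e0
    obtain ⟨C, hC⟩ := h ε e0
    refine ⟨max C 1, by positivity, fun k => Z_ge hK hne ν hν k (by positivity) fun p hp x hx =>
      (hC k p hp x hx).trans ?_⟩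
    exact mul_le_mul_of_nonneg_right (mul_le_mul_of_nonneg_right (le_max_left _ _) (by positivity))
      (integral_nonneg fun _ => by positivity)
  have zp : ∀ k, 0 < Z ν k := fun k => by
    obtain ⟨C, C0, hC⟩ := low 1 one_pos
    refine (Z_nonneg ν k).lt_of_ne fun e => ?_
    have := (pow_pos (dp k) 2).trans_le (hC k)
    rw [← e, mul_zero] at this
    exact lt_irrefl _ this
  refine ⟨Real.exp (s / c), ?_, ?_⟩
  · simp only [hc, mul_assoc]
    exact conv c0 (Eventually.of_forall dp) hs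
  simp only [hc, mul_assoc, mul_left_comm (2 : ℝ) c]
  refine conv c0 (Eventually.of_forall zp) (tendsto_order.2 ⟨fun a ha => ?_, fun a ha => ?_⟩)
  · obtain ⟨C, C0, hC⟩ := low (Real.exp ((s - a) / 2) - 1) (by
      have := Real.add_one_le_exp ((s - a) / 2); linarith)
    have h1 := hs.sub (tendsto_const_div_atTop_nhds_zero_nat (Real.log C / 2))
    filter_upwards [h1.eventually_const_lt (show (s + a) / 2 < s - 0 by linarith), g_pos n,
      eventually_gt_atTop 0] with k hk hg k0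
    have k1 : (0 : ℝ) < k := by exact_mod_cast k0
    have N0 : (0 : ℝ) < Fintype.card (Ix n k) := by exact_mod_cast Fintype.card_pos
    have h2 := Real.log_le_log (pow_pos (dp k) 2) (hC k)
    rw [add_sub_cancel, Real.log_mul (by positivity) (zp k).ne', Real.log_pow, Real.log_pow,
      Real.log_mul C0.ne' (by positivity), Real.log_pow, Real.log_exp] at h2
    have e : Real.log (D K k) / (k * Fintype.card (Ix n k)) - Real.log C / 2 / k =
        (2 * Real.log (D K k) - Fintype.card (Ix n k) * Real.log C) / (2 * (k * Fintype.card (Ix n k))) := by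
      field_simp
    rw [e] at hk
    rw [lt_div_iff₀ (by positivity)] at hk ⊢
    push_cast at h2
    nlinarith
  · have v0 : 0 ≤ ν.real Set.univ := measureReal_nonneg
    have h1 := hs.add (tendsto_const_div_atTop_nhds_zero_nat (Real.log (1 + ν.real Set.univ) / 2))
    filter_upwards [h1.eventually_lt_const (show s + 0 < a by linarith), g_pos n,
      eventually_gt_atTop 0] with k hk hg k0
    have k1 : (0 : ℝ) < k := by exact_mod_cast k0
    have N0 : (0 : ℝ) < Fintype.card (Ix n k) := by exact_mod_cast Fintype.card_pos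
    have h2 := Real.log_le_log (zp k) (Z_le hK hne ν hν k)
    have := dp k
    rw [Real.log_mul (by positivity) (by positivity), Real.log_pow, Real.log_pow] at h2
    refine lt_of_le_of_lt ?_ hk
    have e : Real.log (D K k) / (k * Fintype.card (Ix n k)) + Real.log (1 + ν.real Set.univ) / 2 / k =
        (2 * Real.log (D K k) + Fintype.card (Ix n k) * Real.log (1 + ν.real Set.univ)) /
          (2 * (k * Fintype.card (Ix n k))) := by
      field_simp
    rw [e]
    exact div_le_div_of_nonneg_right (by exact_mod_cast h2) (by positivity)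

end Pool.Agent.H.MP_a9f24d_an
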